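import Mathlib
import Pool.Agent.H30.ShareTop

set_option autoImplicit false

/-!
Rational functions are elements of `RatFunc ℂ`, written in lowest terms as `R.num / R.denom`.

Idea of the proof.  Put `S = ∂_z R = λ w R'` and suppose `S ≠ R`.  The function
`κ = ∂_z S (R - S) / ((S - a) (S - b))` has only simple poles in `ℂ*`, at the poles of `R`, with
positive residues, and its values at `0` and `∞` are known; the residue theorem leaves only the
case where exactly one of `R(0)`, `R(∞)` is infinite, say `R(∞)`, and then `κ` is the logarithmic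
derivative of `Q Q₀`, where `Q` is the denominator of `R` and `Q₀` its radical.  The function
`(R - S) / ((R - a) (R - b))` is a polynomial in `1/w` whose degree `E` is the order of `R - a`
(say) at `0`, and it vanishes at `∞` and to the order `m - 1` at the poles of order `m` of `R`, so
`deg Q/Q₀ < E`.  Comparing the expansions at `0` of `(R - S) / (R - b) = a / (a - b) + ∂_z log Q`
and of `κ` up to the order `E` shows first that `Q/Q₀` is constant and then
`d² + (d - E)² = 0` for the degree `d` of `R`, a contradiction.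
-/

open Polynomial

namespace Pool.Agent.Results.MP_5565ac_an.SharedValues

/-- `∂_z R = λ w R'(w)`, the derivative being given by the quotient rule. -/
noncomputable def dz (lam : ℂ) (R : RatFunc ℂ) : RatFunc ℂ :=
  RatFunc.C lam * RatFunc.X *
    (algebraMap ℂ[X] (RatFunc ℂ) (derivative R.num * R.denom - R.num * derivative R.denom) /
      algebraMap ℂ[X] (RatFunc ℂ) (R.denom ^ 2))

/-- The set `{w ∈ ℂ* : R(w) = a}` for `a ∈ ℂ` (a pole of `R` is not in it). -/
def points (R : RatFunc ℂ) (a : ℂ) : Set ℂ :=
  {w | w ≠ 0 ∧ R.denom.eval w ≠ 0 ∧ R.num.eval w / R.denom.eval w = a}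

/-- `R` and `S` share the value `a` in `ℂ*`, ignoring multiplicities. -/
def Share (R S : RatFunc ℂ) (a : ℂ) : Prop := points R a = points S a

lemma dz_eq (lam : ℂ) (R : RatFunc ℂ) : dz lam R =
    algebraMap ℂ[X] (RatFunc ℂ)
      (C lam * X * (derivative R.num * R.denom - R.num * derivative R.denom)) /
      algebraMap ℂ[X] (RatFunc ℂ) (R.denom ^ 2) := by
  rw [dz, map_mul, map_mul, RatFunc.algebraMap_C, RatFunc.algebraMap_X, mul_div_assoc]

/-- The value of `∂_z R` at a point which is not a pole of `R`. -/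
lemma dz_value (lam : ℂ) (R : RatFunc ℂ) {w : ℂ} (hw : R.denom.eval w ≠ 0) :
    (dz lam R).denom.eval w ≠ 0 ∧ (dz lam R).num.eval w / (dz lam R).denom.eval w =
      lam * w * ((derivative R.num).eval w * R.denom.eval w -
        R.num.eval w * (derivative R.denom).eval w) / R.denom.eval w ^ 2 := by
  have hq : R.denom ^ 2 ≠ 0 := pow_ne_zero _ R.denom_ne_zero
  have h1 : (dz lam R).denom ∣ R.denom ^ 2 := by
    rw [dz_eq]; exact RatFunc.denom_div_dvd _ _
  have h2 : (dz lam R).denom.eval w ≠ 0 := by
    intro h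
    obtain ⟨T, hT⟩ := h1
    have := congrArg (eval w) hT
    rw [eval_pow, eval_mul, h, zero_mul] at this
    exact pow_ne_zero _ hw this
  have h3 := (RatFunc.num_mul_eq_mul_denom_iff (x := dz lam R) hq).2 (dz_eq lam R)
  refine ⟨h2, ?_⟩
  have h4 := congrArg (eval w) h3
  simp only [eval_mul, eval_pow, eval_sub, eval_C, eval_X] at h4
  rw [div_eq_div_iff h2 (pow_ne_zero _ hw)]
  linear_combination h4

/-- `∂_z R` is what it should be: its value at `w` is `λ w R'(w)`. -/
lemma dz_deriv (lam : ℂ) (R : RatFunc ℂ) {w : ℂ} (hw : R.denom.eval w ≠ 0) :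
    (dz lam R).num.eval w / (dz lam R).denom.eval w =
      lam * w * deriv (fun z => R.num.eval z / R.denom.eval z) w := by
  rw [(dz_value lam R hw).2]
  have h := ((R.num.hasDerivAt w).div (R.denom.hasDerivAt w) hw).deriv
  have e : (fun z => R.num.eval z / R.denom.eval z) =
    ((fun x => eval x R.num) / fun x => eval x R.denom) := rfl
  rw [e, h]
  ring

lemma shareAt {lam a : ℂ} {R : RatFunc ℂ} (h : Share R (dz lam R) a) :
    H30.Share.ShareAt lam R.num R.denom a := by
  intro w hw hQ
  have h1 : w ∈ points R a ↔ w ∈ points (dz lam R) a := by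
    have h' : points R a = points (dz lam R) a := h
    rw [h']
  have h2 : w ∈ points R a ↔ R.num.eval w = a * R.denom.eval w := by
    constructor
    · rintro ⟨_, _, h3⟩
      rwa [div_eq_iff hQ] at h3
    · intro h3
      exact ⟨hw, hQ, by rw [div_eq_iff hQ]; exact h3⟩
  have h3 : w ∈ points (dz lam R) a ↔
      lam * w * ((derivative R.num).eval w * R.denom.eval w -
        R.num.eval w * (derivative R.denom).eval w) = a * R.denom.eval w ^ 2 := by
    obtain ⟨h4, h5⟩ := dz_value lam R hQ
    constructor
    · rintro ⟨_, _, h6⟩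
      rwa [h5, div_eq_iff (pow_ne_zero _ hQ)] at h6
    · intro h6
      exact ⟨hw, h4, by rw [h5, div_eq_iff (pow_ne_zero _ hQ)]; exact h6⟩
  rw [← h2, h1, h3]

/-- Let `λ ≠ 0` and let `R` be a non-constant rational function.  If `R` and `∂_z R = λ w R'`
share two distinct values `a, b ∈ ℂ ∖ {0}` in `ℂ*`, then `R = ∂_z R`. -/
theorem result (lam : ℂ) (hlam : lam ≠ 0) (R : RatFunc ℂ) (hR : ∀ c : ℂ, R ≠ RatFunc.C c)
    (a b : ℂ) (ha : a ≠ 0) (hb : b ≠ 0) (hab : a ≠ b)
    (h1 : Share R (dz lam R) a) (h2 : Share R (dz lam R) b) : R = dz lam R := by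
  have hQ : R.denom ≠ 0 := R.denom_ne_zero
  have hnc : ∀ c : ℂ, R.num ≠ C c * R.denom := by
    intro c hc
    apply hR c
    have h3 := RatFunc.num_div_denom R
    rw [hc, map_mul, RatFunc.algebraMap_C, mul_div_assoc,
      div_self (RatFunc.algebraMap_ne_zero hQ), mul_one] at h3
    exact h3.symm
  have key := H30.Share.poly_main hlam ha hb hab R.isCoprime_num_denom hQ hnc
    (shareAt h1) (shareAt h2)
  rw [dz_eq, ← sub_eq_zero.mp key]
  conv_lhs => rw [← RatFunc.num_div_denom R]
  rw [div_eq_div_iff (RatFunc.algebraMap_ne_zero hQ)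
    (RatFunc.algebraMap_ne_zero (pow_ne_zero _ hQ)), ← map_mul, ← map_mul]
  congr 1
  ring

end Pool.Agent.Results.MP_5565ac_an.SharedValues
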